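import Pool.Agent.X225.Vr.Cube

/-!
# Nonvanishing homology degrees of Vietoris-Rips complexes of cubes and slices

For `r ≥ 1` all degrees in which `VR(Q_n; r)` has nonzero reduced integral homology lie between
`1` and `2 ^ r - 1`, and the largest one is exactly `2 ^ r - 1` as soon as `n ≥ r + 1`.  Hence
`N(n, r) ≤ 2 ^ r - 1` for all `n`, and the nondecreasing sequence `n ↦ N(n, r)` is eventually
constant.  For the slices all degrees are smaller than `2 ^ (2 ⌊r / 2⌋)`.
-/

set_option autoImplicit false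

namespace Pool.Agent.Results.MP_7cff07_gt.TopDegreeStable

open Finset Pool.Agent.W273.VR X225.Vr

/-- `N(n, r)`: the number of degrees in which `VR(Q_n; r)` has nonzero reduced homology. -/
noncomputable def NQ (n r : ℕ) : ℕ := Set.ncard {q : ℕ | HomologyNonzero (VRFace n r) q}

/-- The faces of `VR(L^n_ℓ; r)`: faces of `VR(Q_n; r)` all of whose vertices have exactly `ℓ`
entries `true`. -/
def SliceFace (n l r : ℕ) (σ : Finset (Fin n → Bool)) : Prop :=
  VRFace n r σ ∧ ∀ x ∈ σ, ones x = l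

/-- `N_ℓ(n, r)`: the number of degrees in which `VR(L^n_ℓ; r)` has nonzero reduced homology. -/
noncomputable def NL (n l r : ℕ) : ℕ := Set.ncard {q : ℕ | HomologyNonzero (SliceFace n l r) q}

lemma finite_cube (n r : ℕ) : {q : ℕ | HomologyNonzero (VRFace n r) q}.Finite :=
  (Set.finite_Iio (2 ^ r)).subset fun _ hq => vanish_cube hq

lemma NQ_le (n r : ℕ) (hr : 1 ≤ r) : NQ n r ≤ 2 ^ r - 1 := by
  unfold NQ
  have h1 : {q : ℕ | HomologyNonzero (VRFace n r) q} ⊆ ((Finset.Ico 1 (2 ^ r) : Finset ℕ) : Set ℕ) := by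
    intro q hq
    rw [Finset.coe_Ico]
    refine ⟨?_, vanish_cube hq⟩
    by_contra hcon
    have : q = 0 := by omega
    subst this
    exact zero_cube hr hq
  have h2 := Set.ncard_le_ncard h1 (Finset.finite_toSet _)
  rwa [Set.ncard_coe_finset, Nat.card_Ico] at h2

lemma NQ_le' (n r : ℕ) : NQ n r ≤ 2 ^ r := by
  unfold NQ
  have h1 : {q : ℕ | HomologyNonzero (VRFace n r) q} ⊆ ((Finset.range (2 ^ r) : Finset ℕ) : Set ℕ) := by
    intro q hq
    rw [Finset.coe_range]
    exact vanish_cube hq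
  have h2 := Set.ncard_le_ncard h1 (Finset.finite_toSet _)
  rwa [Set.ncard_coe_finset, Finset.card_range] at h2

lemma NQ_mono (n r : ℕ) : NQ n r ≤ NQ (n + 1) r :=
  Set.ncard_le_ncard (fun _ hq => mono_cube hq) (finite_cube (n + 1) r)

lemma slice_lt {n l r q : ℕ} (h : HomologyNonzero (SliceFace n l r) q) :
    q < 2 ^ (2 * (r / 2)) := by
  classical
  by_contra hcon
  push Not at hcon
  apply vanish (2 * (r / 2)) q (univ.filter fun x : Fin n → Bool => ones x = l) hcon
  have h1 : (fun σ : Finset (Fin n → Bool) => VRFace n (2 * (r / 2)) σ ∧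
      σ ⊆ univ.filter fun x : Fin n → Bool => ones x = l) = SliceFace n l r := by
    funext σ
    unfold SliceFace
    apply propext
    constructor
    · rintro ⟨h2, h3⟩
      refine ⟨⟨h2.1, fun x hx y hy => ?_⟩, fun x hx => (mem_filter.1 (h3 hx)).2⟩
      have := h2.2 x hx y hy
      omega
    · rintro ⟨h2, h3⟩
      refine ⟨⟨h2.1, fun x hx y hy => ?_⟩, fun x hx => mem_filter.2 ⟨mem_univ _, h3 x hx⟩⟩
      have h4 := h2.2 x hx y hy
      obtain ⟨k, hk⟩ := even_dist x y
      rw [h3 x hx, h3 y hy] at hk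
      omega
  rw [h1]
  exact h

/-- **Main result.** -/
theorem result :
    (∀ n r q : ℕ, 1 ≤ r → HomologyNonzero (VRFace n r) q → 1 ≤ q ∧ q ≤ 2 ^ r - 1) ∧
    (∀ n r : ℕ, r + 1 ≤ n → HomologyNonzero (VRFace n r) (2 ^ r - 1)) ∧
    (∀ n r : ℕ, 1 ≤ r → NQ n r ≤ 2 ^ r - 1) ∧
    (∀ n r : ℕ, NQ n r ≤ NQ (n + 1) r) ∧
    (∀ r : ℕ, ∃ n₀ : ℕ, ∀ n : ℕ, n₀ ≤ n → NQ n r = NQ n₀ r) ∧
    (∀ n l r q : ℕ, HomologyNonzero (SliceFace n l r) q → q ≤ 2 ^ (2 * (r / 2)) - 1) ∧
    (∀ n l r : ℕ, NL n l r ≤ 2 ^ (2 * (r / 2))) := by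
  refine ⟨?_, fun n r h => top_cube h, NQ_le, NQ_mono, ?_, ?_, ?_⟩
  · intro n r q hr h
    constructor
    · by_contra hcon
      have : q = 0 := by omega
      subst this
      exact zero_cube hr h
    · have := vanish_cube h
      omega
  · intro r
    have hmono : Monotone fun n => NQ n r := monotone_nat_of_le_succ fun n => NQ_mono n r
    -- take `n₀` with the maximal value
    have hbdd : ∀ n, NQ n r ≤ 2 ^ r := fun n => NQ_le' n r
    obtain ⟨m, ⟨n₀, hn₀⟩, hmax⟩ : ∃ m, (∃ n, NQ n r = m) ∧ ∀ n, NQ n r ≤ m := by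
      classical
      refine ⟨Nat.findGreatest (fun m => ∃ n, NQ n r = m) (2 ^ r), ?_, ?_⟩
      · exact Nat.findGreatest_spec (P := fun m => ∃ n, NQ n r = m) (hbdd 0) ⟨0, rfl⟩
      · intro n
        exact Nat.le_findGreatest (hbdd n) ⟨n, rfl⟩
    refine ⟨n₀, fun n hn => le_antisymm ?_ (hmono hn)⟩
    rw [hn₀]
    exact hmax n
  · intro n l r q h
    have := slice_lt h
    omega
  · intro n l r
    unfold NL
    have h1 : {q : ℕ | HomologyNonzero (SliceFace n l r) q} ⊆
        ((Finset.range (2 ^ (2 * (r / 2))) : Finset ℕ) : Set ℕ) := by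
      intro q hq
      rw [Finset.coe_range]
      exact slice_lt hq
    have h2 := Set.ncard_le_ncard h1 (Finset.finite_toSet _)
    rwa [Set.ncard_coe_finset, Finset.card_range] at h2

end Pool.Agent.Results.MP_7cff07_gt.TopDegreeStable
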